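import Pool.Agent.H.MP_e14cd3_lc.A

namespace Pool.Agent.H.MP_f9087f_lc

open Pool.Agent.Lib.CX Pool.Agent.Lib.ER Pool.Agent.H.MP_e14cd3_lc

abbrev Pt (d : ℕ) := EuclideanSpace ℝ (Fin d)

variable {d : ℕ}

theorem dist_one {p q : Pt d} (m : Pt d) : dist p q = 1 ↔
    inner ℝ (p - m) (p - m) + inner ℝ (q - m) (q - m) - 2 * inner ℝ (p - m) (q - m) = 1 := by
  rw [dist_eq_norm, ← sq_eq_sq₀ (norm_nonneg _) zero_le_one, ← real_inner_self_eq_norm_sq,
    show p - q = (p - m) - (q - m) by abel, real_inner_sub_sub_self, one_pow]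
  constructor <;> intro h <;> linarith

theorem pm {p q : Pt d} (hp : inner ℝ p p = 1 / 2) (hq : inner ℝ q q = 1 / 2) (h : inner ℝ p q ^ 2 = 1 / 4) :
    p = q ∨ p = -q := by
  rcases sq_eq_sq_iff_eq_or_eq_neg.1 (h.trans (by norm_num : (1 / 4 : ℝ) = (1 / 2) ^ 2)) with c | c
  · left; rw [← sub_eq_zero, ← inner_self_eq_zero (𝕜 := ℝ), real_inner_sub_sub_self]; linarith
  · right; rw [← add_eq_zero_iff_eq_neg, ← inner_self_eq_zero (𝕜 := ℝ), real_inner_add_add_self]; linarith

theorem zero_of_orth (u : Fin d → Pt d) (h0 : ∀ i, u i ≠ 0) (h : ∀ i j, i ≠ j → inner ℝ (u i) (u j) = 0) (z : Pt d)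
    (hz : ∀ i, inner ℝ (u i) z = 0) : z = 0 := by
  have he : Orthonormal ℝ fun i => ‖u i‖⁻¹ • u i := ⟨fun i => norm_smul_inv_norm (h0 i), fun i j c => by
    simp [inner_smul_left, inner_smul_right, h i j c]⟩
  rw [← inner_self_eq_zero (𝕜 := ℝ), pars _ he]
  simp [inner_smul_left, hz]

/-- rigidity of the cross-polytope -/
theorem cross (h3 : 3 ≤ d) (a b : Fin d → Pt d) (hn : ∀ i, a i ≠ b i)
    (h : ∀ i j, i ≠ j → dist (a i) (a j) = 1 ∧ dist (a i) (b j) = 1 ∧ dist (b i) (b j) = 1) :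
    ∃ m, ∀ i, b i - m = -(a i - m) ∧ inner ℝ (a i - m) (a i - m) = 1 / 2 := by
  simp only [dist_one 0, sub_zero] at h
  have o : ∀ i j, i ≠ j → inner ℝ (a i - b i) (a j - b j) = 0 ∧ inner ℝ (a i - b i) ((a i + b i) - (a j + b j)) = 0 :=
    fun i j c => by
      have h1 := h i j c
      have h2 := h j i c.symm
      simp only [inner_sub_left, inner_sub_right, inner_add_right, real_inner_comm (a i) (b i),
        real_inner_comm (b i) (a j)] at h2 ⊢
      constructor <;> linarith [h1.1, h1.2.1, h1.2.2, h2.2.1]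
  have s : ∀ i j, a i + b i = a j + b j := fun i j => by
    refine sub_eq_zero.1 (zero_of_orth (fun k => a k - b k) (fun k => sub_ne_zero.2 (hn k)) (fun k l c => (o k l c).1) _
      fun k => ?_)
    have q : ∀ l, inner ℝ (a k - b k) ((a k + b k) - (a l + b l)) = 0 := fun l => by
      by_cases c : k = l
      · simp [c]
      · exact (o k l c).2
    have := q i
    have := q j
    simp only [inner_sub_right] at *
    linarith
  let i0 : Fin d := ⟨0, by omega⟩
  have e : ∀ i, b i - (1 / 2 : ℝ) • (a i0 + b i0) = -(a i - (1 / 2 : ℝ) • (a i0 + b i0)) := fun i => by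
    rw [s i0 i]; module
  refine ⟨_, fun i => ⟨e i, ?_⟩⟩
  generalize (1 / 2 : ℝ) • (a i0 + b i0) = m at e
  have r : ∀ i j, i ≠ j → inner ℝ (a i - m) (a i - m) + inner ℝ (a j - m) (a j - m) = 1 := fun i j c => by
    have h1 := (dist_one m).1 ((dist_one 0).2 (by simpa using (h i j c).1))
    have h2 := (dist_one m).1 ((dist_one 0).2 (by simpa using (h i j c).2.1) : dist (a i) (b j) = 1)
    rw [e, inner_neg_neg, inner_neg_right] at h2
    linarith
  obtain ⟨j, k, c1, c2, c3⟩ : ∃ j k : Fin d, i ≠ j ∧ i ≠ k ∧ j ≠ k := by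
    by_cases c : i.1 = 0
    · exact ⟨⟨1, by omega⟩, ⟨2, by omega⟩, by simp [Fin.ext_iff, c]⟩
    by_cases c' : i.1 = 1
    · exact ⟨⟨0, by omega⟩, ⟨2, by omega⟩, by simp [Fin.ext_iff, c']⟩
    · exact ⟨⟨0, by omega⟩, ⟨1, by omega⟩, by simp [Fin.ext_iff, c, c']⟩
  linarith [r i j c1, r i k c2, r j k c3]

theorem no_simplex (x : Fin (d + 1) → Pt d) (p : Pt d) (h : ∀ i j, i ≠ j → dist (x i) (x j) = 1)
    (hp : ∀ i, dist (x i) p = 1) : False := by
  have n : ∀ i, inner ℝ (x i - p) (x i - p) = 1 := fun i => by simpa using (dist_one p).1 (hp i)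
  have li : LinearIndependent ℝ fun i => x i - p := by
    rw [Fintype.linearIndependent_iff]
    intro g hg
    have k : ∀ j, g j = -∑ i, g i := fun j => by
      have := congrArg (fun z => inner ℝ z (x j - p)) hg
      simp only [sum_inner, inner_smul_left, inner_zero_left, conj_trivial] at this
      have e : ∀ i, g i * inner ℝ (x i - p) (x j - p) = g i / 2 + if i = j then g i / 2 else 0 := fun i => by
        split_ifs with c
        · rw [c, n]; ring
        · have := (dist_one p).1 (h i j c)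
          rw [n, n] at this
          rw [show inner ℝ (x i - p) (x j - p) = 1 / 2 by linarith]; ring
      simp only [e, Finset.sum_add_distrib, Finset.sum_ite_eq', Finset.mem_univ, if_true, ← Finset.sum_div] at this
      linarith
    have s := Finset.sum_congr rfl fun j (_ : j ∈ Finset.univ) => k j
    simp only [Finset.sum_const, Finset.card_univ, Fintype.card_fin, nsmul_eq_mul] at s
    have z : ∑ i, g i = 0 := by
      have : (0 : ℝ) < (d + 1 : ℕ) + 1 := by positivity
      exact mul_left_cancel₀ this.ne' (by linarith)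
    intro i; rw [k, z, neg_zero]
  have := li.fintype_card_le_finrank
  simp at this

theorem move {a b a0 b0 : Pt d} (h : dist a0 b0 = dist a b) :
    ∃ f : Pt d → Pt d, f a0 = a ∧ f b0 = b ∧ ∀ p q, dist (f p) (f q) = dist p q := by
  have := Submodule.reflection_sub (v := b0 - a0) (w := b - a)
    (by rw [← dist_eq_norm, ← dist_eq_norm, dist_comm, h, dist_comm])
  refine ⟨fun p => a + (ℝ ∙ (b0 - a0 - (b - a)))ᗮ.reflection (p - a0), by simp, by simp [this], fun p q => ?_⟩
  rw [dist_add_left, LinearIsometryEquiv.dist_map, dist_sub_right]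

noncomputable def ev (d i : ℕ) : Pt d := WithLp.toLp 2 fun j => if j.1 = i then 1 else 0

theorem ev_inner {i j : ℕ} (hi : i < d) : inner ℝ (ev d i) (ev d j) = if i = j then 1 else 0 := by
  simp only [ev, PiLp.inner_apply, RCLike.inner_apply, conj_trivial]
  rw [Finset.sum_eq_single ⟨i, hi⟩ (fun k _ c => by simp [show k.1 ≠ i from fun e => c (Fin.ext e)]) (by simp)]
  simp

theorem dist_sq (p q : Pt d) : dist p q ^ 2 = inner ℝ p p + inner ℝ q q - 2 * inner ℝ p q := by
  rw [dist_eq_norm, ← real_inner_self_eq_norm_sq, real_inner_sub_sub_self]; ring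

theorem tri (h2 : 2 ≤ d) {a b : Pt d} {s : ℝ} (hs : 0 ≤ s) (h0 : 0 < dist a b) (h1 : (s - 1) ^ 2 ≤ dist a b ^ 2)
    (h : dist a b ≤ s + 1) : ∃ c, dist a c = 1 ∧ dist c b = s := by
  obtain ⟨D, hD⟩ : ∃ D, D = dist a b := ⟨_, rfl⟩
  rw [← hD] at h0 h1 h
  have e0 := ev_inner (d := d) (i := 0) (j := 0) (by omega)
  have e1 := ev_inner (d := d) (i := 1) (j := 1) (by omega)
  have e2 := ev_inner (d := d) (i := 0) (j := 1) (by omega)
  have e3 := ev_inner (d := d) (i := 1) (j := 0) (by omega)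
  simp only [if_true, zero_ne_one, one_ne_zero, if_false] at e0 e1 e2 e3
  obtain ⟨f, f1, f2, f3⟩ := move (a := a) (b := b) (a0 := 0) (b0 := D • ev d 0) (by
    rw [← hD, ← sq_eq_sq₀ dist_nonneg h0.le, dist_sq]
    simp only [inner_smul_left, inner_smul_right, e0, conj_trivial, inner_zero_left]; ring)
  obtain ⟨ξ, hξ⟩ : ∃ ξ, 2 * D * ξ = D ^ 2 + 1 - s ^ 2 := ⟨(D ^ 2 + 1 - s ^ 2) / (2 * D), by field_simp⟩
  have k : 0 ≤ 1 - ξ ^ 2 := by
    have : 0 ≤ (2 * D) ^ 2 * (1 - ξ ^ 2) := by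
      have := mul_nonneg (sub_nonneg.2 h1) (sub_nonneg.2 (pow_le_pow_left₀ h0.le h 2))
      rw [mul_sub, ← mul_pow, hξ]; nlinarith
    by_contra c; nlinarith [mul_pos (show 0 < (2 * D) ^ 2 by positivity) (show 0 < -(1 - ξ ^ 2) by linarith)]
  have q := Real.mul_self_sqrt k
  refine ⟨f (ξ • ev d 0 + √(1 - ξ ^ 2) • ev d 1), ?_, ?_⟩
  · rw [← f1, f3, ← sq_eq_sq₀ dist_nonneg zero_le_one, dist_sq]
    simp only [inner_add_left, inner_add_right, inner_smul_left, inner_smul_right, e0, e1, e2, e3, conj_trivial,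
      inner_zero_left]
    linarith
  · rw [← f2, f3, ← sq_eq_sq₀ dist_nonneg hs, dist_sq]
    simp only [inner_add_left, inner_add_right, inner_smul_left, inner_smul_right, e0, e1, e2, e3, conj_trivial]
    linarith

end Pool.Agent.H.MP_f9087f_lc
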