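import Pool.Agent.H.MP_f9087f_lc.A

namespace Pool.Agent.H.MP_f9087f_lc

open Pool.Agent.Lib.CX Pool.Agent.Lib.ER Pool.Agent.H.MP_e14cd3_lc

variable {d : ℕ}

abbrev Nd := Nm × Bool

def bv (d M : ℕ) : List Nm := (List.range d).map (fun i => (0, i, 0)) ++ vs M

def be (d M : ℕ) (E : List Q4) : List (Nm × Nm) :=
  es M E ++ ((List.range d ×ˢ bv d M).filter fun p => 3 ≤ p.1 ∧ p.2 ≠ (0, p.1, 0)).map fun p => ((0, p.1, 0), p.2)

def dbl (L : List (Nm × Nm)) : List (Nd × Nd) :=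
  L.flatMap fun e => [((e.1, true), (e.2, true)), ((e.1, true), (e.2, false)), ((e.1, false), (e.2, true)),
    ((e.1, false), (e.2, false))]

def ap (d M : ℕ) : List Nm := (List.range d).map (fun i => (0, i, 0)) ++ (List.range M).flatMap fun v => [(2, v, 0), (4, v, 0)]

def np (M : ℕ) : List (Nm × Nm) :=
  [((2, 0, 0), (0, 1, 0)), ((2, 0, 0), (0, 2, 0)), ((3, 0, 0), (0, 0, 0)), ((3, 0, 0), (0, 1, 0))] ++
    (List.range M).map fun v => ((1, v, 0), (0, 2, 0))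

def ne (d M : ℕ) : List (Nd × Nd) := (ap d M).map (fun v => ((v, true), (v, false))) ++ dbl (np M)

theorem all_dbl {L} (P : Nd × Nd → Prop) : (∀ e ∈ dbl L, P e) ↔ ∀ e ∈ L, ∀ s t, P ((e.1, s), (e.2, t)) := by
  simp only [dbl, List.forall_mem_flatMap, List.forall_mem_cons, List.not_mem_nil, false_imp_iff, implies_true, and_true,
    Bool.forall_bool]
  exact forall₂_congr fun _ _ => by tauto

theorem all_be {M E} (P : Nm × Nm → Prop) : (∀ e ∈ be d M E, P e) ↔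
    (∀ e ∈ es M E, P e) ∧ ∀ i < d, 3 ≤ i → ∀ v ∈ bv d M, v ≠ (0, i, 0) → P ((0, i, 0), v) := by
  simp only [be, List.forall_mem_append, List.forall_mem_map, List.forall_mem_filter, Prod.forall, List.mem_product,
    List.mem_range, decide_eq_true_eq, and_imp]
  exact and_congr_right fun _ => ⟨fun h i a b x y z c e => h i x y z a c b e, fun h i x y z a c b e => h i a b x y z c e⟩

theorem fr_mem {M i} (hi : i < d) : (0, i, 0) ∈ bv d M := by simp [bv, hi]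

theorem be_ok {M E} (h0 : 0 < M) (hE : ∀ e ∈ E, Q4.lt M e) : ∀ e ∈ be d M E, e.1 ∈ bv d M ∧ e.2 ∈ bv d M ∧ e.1 ≠ e.2 := by
  rw [all_be]
  exact ⟨fun e he => let ⟨a, b, c⟩ := es_ok h0 hE e he; ⟨List.mem_append_right _ a, List.mem_append_right _ b, c⟩,
    fun i hi _ v hv c => ⟨fr_mem hi, hv, c.symm⟩⟩

theorem pm2 {y1 z1 y2 z2 y3 z3 : ℝ} (h1 : y3 * y1 + z3 * z1 = 0) (h2 : y3 * y2 + z3 * z2 = 0)
    (n1 : y1 * y1 + z1 * z1 = 1 / 2) (n2 : y2 * y2 + z2 * z2 = 1 / 2) (n3 : y3 * y3 + z3 * z3 = 1 / 2) :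
    (y1 * y2 + z1 * z2) ^ 2 = 1 / 4 := by
  grind

def On (p q : Pt d) : Prop := inner ℝ p p + inner ℝ q q - 2 * inner ℝ p q = 1

theorem core2 (h3 : 3 ≤ d) {M E} (h0 : 0 < M) (hE : ∀ e ∈ E, Q4.lt M e) (ψ : Nd → Pt d)
    (hU : ∀ e ∈ es M E, ∀ s t, On (ψ (e.1, s)) (ψ (e.2, t)))
    (hF : ∀ i < d, 3 ≤ i → ∀ v ∈ bv d M, v ≠ (0, i, 0) → ∀ s t, On (ψ ((0, i, 0), s)) (ψ (v, t)))
    (fr : ∀ i < d, ∀ j < d, i ≠ j → ∀ s t, On (ψ ((0, i, 0), s)) (ψ ((0, j, 0), t)))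
    (hm : ∀ i < d, ψ ((0, i, 0), false) = -ψ ((0, i, 0), true) ∧
      inner ℝ (ψ ((0, i, 0), true)) (ψ ((0, i, 0), true)) = 1 / 2)
    (n1 : ∀ v < M, ψ ((2, v, 0), true) ≠ ψ ((2, v, 0), false) ∧ ψ ((4, v, 0), true) ≠ ψ ((4, v, 0), false))
    (n2 : ∀ s t, ψ ((2, 0, 0), s) ≠ ψ ((0, 1, 0), t)) (n3 : ∀ s t, ψ ((2, 0, 0), s) ≠ ψ ((0, 2, 0), t))
    (n4 : ∀ s t, ψ ((3, 0, 0), s) ≠ ψ ((0, 0, 0), t)) (n5 : ∀ s t, ψ ((3, 0, 0), s) ≠ ψ ((0, 1, 0), t))
    (n6 : ∀ v < M, ∀ s t, ψ ((1, v, 0), s) ≠ ψ ((0, 2, 0), t)) :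
    ∃ x : ℕ → ℝ, x 0 ≠ 0 ∧ ∀ e ∈ E, Q4.ok x e := by
  obtain ⟨-, o4, o5, -⟩ := (all_es _).1 hU
  simp only at o4 o5
  have anti : ∀ u p, ψ (u, false) = -ψ (u, true) → inner ℝ (ψ (u, true)) (ψ (u, true)) = 1 / 2 →
      (∀ s, On (ψ (u, s)) p) →
      inner ℝ p p = 1 / 2 ∧ inner ℝ (ψ (u, true)) p = 0 := fun u p a b c => by
    have c1 := c true
    have c2 := c false
    unfold On at c1 c2
    rw [a, inner_neg_neg, inner_neg_left] at c2
    constructor <;> linarith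
  have nf : ∀ i < d, ∀ s, inner ℝ (ψ ((0, i, 0), s)) (ψ ((0, i, 0), s)) = 1 / 2 := fun i hi s => by
    cases s
    · rw [(hm i hi).1, inner_neg_neg, (hm i hi).2]
    · exact (hm i hi).2
  have af := fun i hi p => anti (0, i, 0) p (hm i hi).1 (hm i hi).2
  let e : ℕ → Pt d := fun i => √2 • ψ ((0, i, 0), true)
  have ze : ∀ i p, inner ℝ (ψ ((0, i, 0), true)) p = 0 → inner ℝ (e i) p = 0 := fun i p h => by
    simp [e, inner_smul_left, h]
  have he : Orthonormal ℝ fun i : Fin d => e i := by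
    rw [orthonormal_iff_ite]
    intro i j
    simp only [e, inner_smul_left, inner_smul_right, conj_trivial]
    split_ifs with c
    · rw [c, (hm _ j.2).2, ← mul_assoc, Real.mul_self_sqrt (by norm_num)]; norm_num
    · rw [(af _ i.2 _ fun s => fr _ i.2 _ j.2 (Fin.val_ne_of_ne c) s true).2]; simp
  have P : ∀ p, ∀ v ∈ vs M, ∀ s, inner ℝ p (ψ (v, s)) = inner ℝ (e 0) p * inner ℝ (e 0) (ψ (v, s)) +
      inner ℝ (e 1) p * inner ℝ (e 1) (ψ (v, s)) + inner ℝ (e 2) p * inner ℝ (e 2) (ψ (v, s)) := fun p v hv s => by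
    obtain ⟨k, rfl⟩ : ∃ k, d = k + 3 := ⟨d - 3, by omega⟩
    rw [pars _ he, Fin.sum_univ_succ, Fin.sum_univ_succ, Fin.sum_univ_succ, Finset.sum_eq_zero fun i _ => ?_]
    · simp only [add_zero, add_assoc]; rfl
    · rw [ze _ (ψ (v, s)) (af _ (Fin.is_lt _) _ fun t => hF _ (Fin.is_lt _) (by simp) v (List.mem_append_right _ hv)
        ?_ t s).2, mul_zero]
      rintro rfl
      simp [vs] at hv
  obtain ⟨⟨a0, a1, a2⟩, b, c⟩ := (all_vs (M := M) (· ∈ vs M)).1 fun _ h => h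
  have f0 := af 0 (by omega)
  have f1 := af 1 (by omega)
  have f2 := af 2 (by omega)
  have sA := fun v hv s => f1 _ fun t => (o4 v hv).1 t s
  have sB := fun v hv s => f0 _ fun t => (o4 v hv).2.1 t s
  have sC := fun v hv s => f2 _ fun t => (o4 v hv).2.2.1 t s
  have sD := fun v hv s => f0 _ fun t => (o4 v hv).2.2.2.1 t s
  have BD : ∀ v < M, ∀ s t, inner ℝ (ψ ((2, v, 0), s)) (ψ ((4, v, 0), t)) = 0 := fun v hv s t => by
    have := (o4 v hv).2.2.2.2.1 s t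
    unfold On at this
    linarith [(sB v hv s).1, (sD v hv t).1]
  have key : ∀ u ∈ vs M, ∀ w ∈ vs M, (∀ s, inner ℝ (ψ (u, s)) (ψ (u, s)) = 1 / 2 ∧ inner ℝ (ψ ((0, 0, 0), true)) (ψ (u, s)) = 0) →
      (∀ s, inner ℝ (ψ (w, s)) (ψ (w, s)) = 1 / 2 ∧ inner ℝ (ψ ((0, 0, 0), true)) (ψ (w, s)) = 0) →
      (∀ s, inner ℝ (ψ (w, true)) (ψ (u, s)) = 0) → ψ (u, true) ≠ ψ (u, false) → ψ (u, false) = -ψ (u, true) :=
    fun u hu w hw h1 h2 h3 h4 => by
      refine (pm (h1 false).1 (h1 true).1 ?_).resolve_left h4.symm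
      have q1 := (h1 false).1
      have q2 := (h1 true).1
      have q3 := (h2 true).1
      have q4 := h3 false
      have q5 := h3 true
      rw [P _ _ hu] at q1 q2 q4 q5 ⊢
      rw [P _ _ hw] at q3
      simp only [ze _ _ (h1 _).2, ze _ _ (h2 _).2, mul_zero, zero_add] at q1 q2 q3 q4 q5 ⊢
      exact pm2 q4 q5 q1 q2 q3
  have aB := fun v hv => key _ (b v hv).2.1 _ (b v hv).2.2.2 (sB v hv) (sD v hv)
    (fun s => by rw [real_inner_comm]; exact BD v hv s true) (n1 v hv).1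
  have aD := fun v hv => key _ (b v hv).2.2.2 _ (b v hv).2.1 (sD v hv) (sB v hv) (BD v hv true) (n1 v hv).2
  have S : ∀ v ∈ vs M, inner ℝ (ψ (v, true)) (ψ (v, true)) = 1 / 2 := by
    rw [all_vs]
    exact ⟨⟨nf 0 (by omega) _, nf 1 (by omega) _, nf 2 (by omega) _⟩,
      fun v hv => ⟨(sA v hv _).1, (sB v hv _).1, (sC v hv _).1, (sD v hv _).1⟩, fun a ha c hc =>
      ⟨(anti _ _ (aB c hc) (sB c hc _).1 fun s => (o5 a ha c hc).2.1 s true).1,
        (anti _ _ (aD c hc) (sD c hc _).1 fun s => (o5 a ha c hc).2.2.2 s true).1⟩⟩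
  have z := fun i hi j hj c => ze i _ (af i hi _ fun s => fr i hi j hj c s true).2
  have z10 := z 1 (by omega) 0 (by omega) (by omega)
  have z20 := z 2 (by omega) 0 (by omega) (by omega)
  have z01 := z 0 (by omega) 1 (by omega) (by omega)
  have z21 := z 2 (by omega) 1 (by omega) (by omega)
  have z02 := z 0 (by omega) 2 (by omega) (by omega)
  have z12 := z 1 (by omega) 2 (by omega) (by omega)
  have col : ∀ i, (0, i, 0) ∈ vs M → i < d → ∀ v ∈ vs M, (∀ s t, ψ (v, s) ≠ ψ ((0, i, 0), t)) →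
      inner ℝ (ψ (v, true)) (ψ ((0, i, 0), true)) ^ 2 ≠ 1 / 4 := fun i hi hd v hv h q => by
    rcases pm (S v hv) (S _ hi) q with c | c
    · exact h _ _ c
    · exact h _ false (c.trans (hm i hd).1.symm)
  have sq : ∀ a b : ℝ, a * a = 1 / 2 → b * b = 1 / 2 → (a * b) ^ 2 = 1 / 4 := fun a b h1 h2 => by
    rw [mul_pow, pow_two, pow_two, h1, h2]; norm_num
  have s0 := S _ a0
  have s1 := S _ a1
  have s2 := S _ a2
  rw [P _ _ a0] at s0
  rw [P _ _ a1] at s1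
  rw [P _ _ a2] at s2
  simp only [z10, z20, z01, z21, z02, z12, mul_zero, add_zero, zero_add] at s0 s1 s2
  refine sound h0 hE (fun v => inner ℝ (e 0) (ψ (v, true))) (fun v => inner ℝ (e 1) (ψ (v, true)))
    (fun v => inner ℝ (e 2) (ψ (v, true))) ⟨z10, z20, z01, z21, z02, z12⟩ (fun v hv h => ?_) (fun q hq => ?_)
    (fun v hv h => col 2 a2 (by omega) _ (b v hv).1 (n6 v hv) ?_)
    ⟨fun h => col 2 a2 (by omega) _ (b 0 h0).2.1 n3 ?_, fun h => col 1 a1 (by omega) _ (b 0 h0).2.1 n2 ?_⟩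
    ⟨fun h => col 1 a1 (by omega) _ (b 0 h0).2.2.1 n5 ?_, fun h => col 0 a0 (by omega) _ (b 0 h0).2.2.1 n4 ?_⟩
  · have := S v hv
    rw [P _ _ hv, h.1, h.2.1, h.2.2] at this
    norm_num at this
  · obtain ⟨q1, q2, -⟩ := es_ok h0 hE q hq
    rw [← P _ _ q2]
    have := hU q hq true true
    unfold On at this
    linarith [S _ q1, S _ q2]
  · have := S _ (b v hv).1
    rw [P _ _ (b v hv).1, h, ze _ _ (sA v hv _).2] at this
    rw [P _ _ a2, z02, z12]
    simpa using sq _ _ (by simpa using this) s2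
  · have := S _ (b 0 h0).2.1
    rw [P _ _ (b 0 h0).2.1, h, ze _ _ (sB 0 h0 _).2] at this
    rw [P _ _ a2, z02, z12]
    simpa using sq _ _ (by simpa using this) s2
  · have := S _ (b 0 h0).2.1
    rw [P _ _ (b 0 h0).2.1, h, ze _ _ (sB 0 h0 _).2] at this
    rw [P _ _ a1, z01, z21]
    simpa using sq _ _ (by simpa using this) s1
  · have := S _ (b 0 h0).2.2.1
    rw [P _ _ (b 0 h0).2.2.1, h, ze _ _ (sC 0 h0 _).2] at this
    rw [P _ _ a1, z01, z21]
    simpa using sq _ _ (by simpa using this) s1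
  · have := S _ (b 0 h0).2.2.1
    rw [P _ _ (b 0 h0).2.2.1, h, ze _ _ (sC 0 h0 _).2] at this
    rw [P _ _ a0, z10, z20]
    simpa using sq _ _ (by simpa using this) s0

theorem core_sound (h3 : 3 ≤ d) {M E} (h0 : 0 < M) (hE : ∀ e ∈ E, Q4.lt M e) (y : Nd → Pt d)
    (hU : ∀ e ∈ dbl (be d M E), dist (y e.1) (y e.2) = 1) (hN : ∀ e ∈ ne d M, y e.1 ≠ y e.2) :
    ∃ x : ℕ → ℝ, x 0 ≠ 0 ∧ ∀ e ∈ E, Q4.ok x e := by
  rw [all_dbl, all_be] at hU
  obtain ⟨hU, hF⟩ := hU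
  simp only [ne, ap, np, List.forall_mem_append, List.forall_mem_map, List.forall_mem_flatMap, all_dbl, List.mem_range,
    List.forall_mem_cons, List.not_mem_nil, false_imp_iff, implies_true, and_true] at hN
  obtain ⟨⟨n0, n1⟩, ⟨n2, n3, n4, n5⟩, n6⟩ := hN
  obtain ⟨⟨o1, o2, o3⟩, -⟩ := (all_es _).1 hU
  simp only at o1 o2 o3
  have fr : ∀ i < d, ∀ j < d, i ≠ j → ∀ s t, dist (y ((0, i, 0), s)) (y ((0, j, 0), t)) = 1 := fun i hi j hj c s t => by
    by_cases a : 3 ≤ i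
    · exact hF i hi a _ (fr_mem hj) (by simp [c.symm]) s t
    by_cases b : 3 ≤ j
    · rw [dist_comm]; exact hF j hj b _ (fr_mem hi) (by simp [c]) t s
    have : i < 3 := by omega
    have : j < 3 := by omega
    interval_cases i <;> interval_cases j
    exacts [absurd rfl c, o1 s t, o2 s t, (dist_comm _ _).trans (o1 t s), absurd rfl c, o3 s t,
      (dist_comm _ _).trans (o2 t s), (dist_comm _ _).trans (o3 t s), absurd rfl c]
  obtain ⟨m, hm⟩ := cross h3 (fun i => y ((0, i, 0), true)) (fun i => y ((0, i, 0), false)) (fun i => n0 i i.2)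
    fun i j c => ⟨fr _ i.2 _ j.2 (Fin.val_ne_of_ne c) _ _, fr _ i.2 _ j.2 (Fin.val_ne_of_ne c) _ _,
      fr _ i.2 _ j.2 (Fin.val_ne_of_ne c) _ _⟩
  have q : ∀ p q, y p ≠ y q → y p - m ≠ y q - m := fun p q h c => h (sub_left_injective c)
  exact core2 h3 h0 hE (fun p => y p - m) (fun e he s t => (dist_one m).1 (hU e he s t))
    (fun i hi c v hv n s t => (dist_one m).1 (hF i hi c v hv n s t))
    (fun i hi j hj c s t => (dist_one m).1 (fr i hi j hj c s t)) (fun i hi => hm ⟨i, hi⟩)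
    (fun v hv => ⟨q _ _ (n1 v hv).1, q _ _ (n1 v hv).2⟩) (fun s t => q _ _ (n2 s t)) (fun s t => q _ _ (n3 s t))
    (fun s t => q _ _ (n4 s t)) (fun s t => q _ _ (n5 s t)) fun v hv s t => q _ _ (n6 v hv s t)

noncomputable def vec (d : ℕ) (x : ℕ → ℝ) (v : Nm) : Pt d :=
  if v.1 = 0 then ev d v.2.1 else cX x v • ev d 0 + cY x v • ev d 1 + cZ x v • ev d 2

noncomputable def pos (d : ℕ) (x : ℕ → ℝ) (p : Nd) : Pt d :=
  ((if p.2 then 1 else -1) * (√2 * ‖vec d x p.1‖)⁻¹) • vec d x p.1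

theorem vec_vs {M x} : ∀ v ∈ vs M, vec d x v = cX x v • ev d 0 + cY x v • ev d 1 + cZ x v • ev d 2 := by
  rw [all_vs]; simp [vec, cX, cY, cZ]

theorem vec_inner (h3 : 3 ≤ d) {M x u v} (hu : u ∈ vs M) (hv : v ∈ vs M) :
    inner ℝ (vec d x u) (vec d x v) = cX x u * cX x v + cY x u * cY x v + cZ x u * cZ x v := by
  have e0 := fun j => ev_inner (d := d) (i := 0) (j := j) (by omega)
  have e1 := fun j => ev_inner (d := d) (i := 1) (j := j) (by omega)
  have e2 := fun j => ev_inner (d := d) (i := 2) (j := j) (by omega)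
  rw [vec_vs u hu, vec_vs v hv]
  simp only [inner_add_left, inner_add_right, inner_smul_left, inner_smul_right, e0, e1, e2, conj_trivial]
  simp
  ring

theorem ev_vec {M x i} (hi : i < d) (h3 : 3 ≤ i) : ∀ v ∈ bv d M, v ≠ (0, i, 0) → inner ℝ (ev d i) (vec d x v) = 0 := by
  have e := fun j => ev_inner (d := d) (i := i) (j := j) hi
  simp only [bv, List.forall_mem_append, List.forall_mem_map]
  refine ⟨fun j _ c => ?_, fun v hv _ => ?_⟩
  · simp only [vec, if_true, e]; exact if_neg fun q => c (by rw [q])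
  · rw [vec_vs v hv]
    simp only [inner_add_right, inner_smul_right, e]
    rw [if_neg (by omega), if_neg (by omega), if_neg (by omega)]; simp

theorem vec_ne (h3 : 3 ≤ d) {M x} : ∀ v ∈ bv d M, vec d x v ≠ 0 := by
  simp only [bv, List.forall_mem_append, List.forall_mem_map, List.mem_range]
  refine ⟨fun j hj c => ?_, fun v hv c => c_ne (x := x) v hv ?_⟩
  · have := ev_inner (j := j) hj
    simp only [vec, if_true] at c this
    simp [c] at this
  · have := vec_inner h3 (x := x) hv hv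
    rw [c, inner_zero_left] at this
    refine ⟨?_, ?_, ?_⟩ <;> nlinarith [mul_self_nonneg (cX x v), mul_self_nonneg (cY x v), mul_self_nonneg (cZ x v)]

theorem pos_inner {x} (p q : Nd) : inner ℝ (pos d x p) (pos d x q) = (if p.2 then 1 else -1) * (if q.2 then 1 else -1) *
    (inner ℝ (vec d x p.1) (vec d x q.1) / (2 * (‖vec d x p.1‖ * ‖vec d x q.1‖))) := by
  simp only [pos, inner_smul_left, inner_smul_right, conj_trivial, div_eq_mul_inv, mul_inv]
  have : (2 : ℝ)⁻¹ = (√2)⁻¹ * (√2)⁻¹ := by rw [← mul_inv, Real.mul_self_sqrt (by norm_num)]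
  rw [this]; ring

theorem pos_self {x} {p : Nd} (h : vec d x p.1 ≠ 0) : inner ℝ (pos d x p) (pos d x p) = 1 / 2 := by
  have := norm_ne_zero_iff.2 h
  rw [pos_inner, real_inner_self_eq_norm_mul_norm]
  split_ifs <;> field_simp

theorem core_unit (h3 : 3 ≤ d) {M E x} (h0 : 0 < M) (hE : ∀ e ∈ E, Q4.lt M e) (x0 : x 0 = 1) (h : ∀ e ∈ E, Q4.ok x e) :
    ∀ e ∈ dbl (be d M E), dist (pos d x e.1) (pos d x e.2) = 1 := by
  have o : ∀ e ∈ be d M E, inner ℝ (vec d x e.1) (vec d x e.2) = 0 := by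
    rw [all_be]
    exact ⟨fun e he => by rw [vec_inner h3 (es_ok h0 hE e he).1 (es_ok h0 hE e he).2.1, c_orth x0 h e he],
      fun i hi c v hv n => ev_vec hi c v hv n⟩
  rw [all_dbl]
  intro e he s t
  obtain ⟨a, b, -⟩ := be_ok h0 hE e he
  rw [dist_one 0, sub_zero, sub_zero, pos_self (vec_ne h3 _ a), pos_self (vec_ne h3 _ b), pos_inner, o e he]
  norm_num

theorem real_of {γ : Type} [DecidableEq γ] {V : List γ} {L : List (γ × γ)} (h : ∀ e ∈ L, e.1 ∈ V ∧ e.2 ∈ V ∧ e.1 ≠ e.2)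
    (p : Fin (mkGr V L).n → Pt d) (hp : ∀ u v, (mkGr V L).G.Adj u v → dist (p u) (p v) = 1) :
    ∃ y : γ → Pt d, (∀ e ∈ L, dist (y e.1) (y e.2) = 1) ∧ (Function.Injective p → ∀ u ∈ V, ∀ v ∈ V, y u = y v → u = v) := by
  refine ⟨fun x => if h : x ∈ V then p ((mkGrIso V L).symm ⟨x, h⟩) else 0, fun e he => ?_, fun hi u hu v hv e => ?_⟩
  · obtain ⟨a, b, c⟩ := h e he
    simp only [a, b, dif_pos]
    exact hp _ _ ((mkGrIso V L).symm.map_rel_iff.2 (by simp [c, he]))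
  · simp only [hu, hv, dif_pos] at e
    exact congrArg Subtype.val ((mkGrIso V L).symm.injective (hi e))

theorem real_to {γ : Type} [DecidableEq γ] (V : List γ) {L : List (γ × γ)} (y : γ → Pt d)
    (hy : ∀ e ∈ L, dist (y e.1) (y e.2) = 1) : ∃ p : Fin (mkGr V L).n → Pt d,
      (∀ u v, (mkGr V L).G.Adj u v → dist (p u) (p v) = 1) ∧
      ((∀ u ∈ V, ∀ v ∈ V, y u = y v → u = v) → Function.Injective p) := by
  refine ⟨fun i => y (mkGrIso V L i).1, fun u v a => ?_, fun h u v e =>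
    (mkGrIso V L).injective (Subtype.ext (h _ (mkGrIso V L u).2 _ (mkGrIso V L v).2 e))⟩
  have := (mkGrIso V L).map_rel_iff.2 a
  simp only [SimpleGraph.comap_adj, Function.Embedding.subtype_apply, SimpleGraph.fromRel_adj] at this
  rcases this.2 with q | q
  · exact hy ((mkGrIso V L u).1, (mkGrIso V L v).1) q
  · exact (dist_comm _ _).trans (hy ((mkGrIso V L v).1, (mkGrIso V L u).1) q)

theorem ap_mem {M} : ∀ v ∈ ap d M, v ∈ bv d M := by
  obtain ⟨-, b, -⟩ := (all_vs (M := M) (· ∈ vs M)).1 fun _ h => h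
  simp only [ap, List.forall_mem_append, List.forall_mem_map, List.forall_mem_flatMap, List.mem_range,
    List.forall_mem_cons, List.not_mem_nil, false_imp_iff, implies_true, and_true]
  exact ⟨fun i hi => fr_mem hi, fun v hv => ⟨List.mem_append_right _ (b v hv).2.1, List.mem_append_right _ (b v hv).2.2.2⟩⟩

theorem np_mem {M} (h0 : 0 < M) : ∀ e ∈ np M, e.1 ∈ vs M ∧ e.2 ∈ vs M ∧ e.1 ≠ e.2 := by
  obtain ⟨⟨a0, a1, a2⟩, b, -⟩ := (all_vs (M := M) (· ∈ vs M)).1 fun _ h => h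
  simp only [np, List.forall_mem_append, List.forall_mem_map, List.mem_range,
    List.forall_mem_cons, List.not_mem_nil, false_imp_iff, implies_true, and_true]
  exact ⟨by simp [*], fun v hv => by simp [*]⟩

theorem ne_ok {M} (h0 : 0 < M) : ∀ e ∈ ne d M, e.1.1 ∈ bv d M ∧ e.2.1 ∈ bv d M ∧ e.1 ≠ e.2 := by
  simp only [ne, List.forall_mem_append, List.forall_mem_map, all_dbl]
  exact ⟨fun v hv => ⟨ap_mem v hv, ap_mem v hv, by simp⟩, fun e he s t => let ⟨a, b, c⟩ := np_mem h0 e he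
    ⟨List.mem_append_right _ a, List.mem_append_right _ b, fun q => c (congrArg Prod.fst q)⟩⟩

end Pool.Agent.H.MP_f9087f_lc
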