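import Pool.Agent.H.MP_f9087f_lc.B

namespace Pool.Agent.H.MP_f9087f_lc

open Pool.Agent.Lib.CX Pool.Agent.Lib.ER Pool.Agent.H.MP_e14cd3_lc

variable {d : ℕ} {α β : Type} [DecidableEq β]

def Un {γ : Type} (y : γ → Pt d) (L : List (γ × γ)) : Prop := ∀ e ∈ L, dist (y e.1) (y e.2) = 1

/-- a two-terminal graph keeping its terminals apart and realisable at the distances in `R` -/
def Gad (d : ℕ) (L : List (β × β)) (t0 t1 : β) (R : Set ℝ) : Prop :=
  t0 ≠ t1 ∧ (∀ e ∈ L, e.1 ≠ e.2) ∧ (∀ y : β → Pt d, Un y L → y t0 ≠ y t1) ∧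
    ∀ a b : Pt d, dist a b ∈ R → ∃ y, y t0 = a ∧ y t1 = b ∧ Un y L

def nm (t0 t1 : β) (p : α × α) (i : β) : (α × α) × β :=
  if i = t0 then ((p.1, p.1), t0) else if i = t1 then ((p.2, p.2), t0) else (p, i)

def expand (L : List (β × β)) (t0 t1 : β) (U N : List (α × α)) : List (((α × α) × β) × ((α × α) × β)) :=
  U.map (fun e => (((e.1, e.1), t0), ((e.2, e.2), t0))) ++ N.flatMap fun p => L.map fun e => (nm t0 t1 p e.1, nm t0 t1 p e.2)

theorem exp_ne {L : List (β × β)} {t0 t1 R} (g : Gad d L t0 t1 R) {U N : List (α × α)} (hU : ∀ e ∈ U, e.1 ≠ e.2)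
    (hN : ∀ e ∈ N, e.1 ≠ e.2) : ∀ e ∈ expand L t0 t1 U N, e.1 ≠ e.2 := by
  simp only [expand, List.forall_mem_append, List.forall_mem_map, List.forall_mem_flatMap]
  refine ⟨fun e he => by simpa using hU e he, fun p hp e he => ?_⟩
  have := hN p hp
  have := g.2.1 e he
  unfold nm
  grind

theorem exp_sound {L : List (β × β)} {t0 t1 R} (g : Gad d L t0 t1 R) {U N : List (α × α)} {y : (α × α) × β → Pt d}
    (h : Un y (expand L t0 t1 U N)) :
    Un (fun v => y ((v, v), t0)) U ∧ ∀ p ∈ N, y ((p.1, p.1), t0) ≠ y ((p.2, p.2), t0) := by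
  simp only [Un, expand, List.forall_mem_append, List.forall_mem_map, List.forall_mem_flatMap] at h
  refine ⟨h.1, fun p hp => ?_⟩
  simpa [nm, g.1.symm] using g.2.2.1 (fun i => y (nm t0 t1 p i)) (h.2 p hp)

theorem exp_complete {L : List (β × β)} {t0 t1 R} (g : Gad d L t0 t1 R) {U N : List (α × α)} {y : α → Pt d}
    (h : Un y U) (hN : ∀ p ∈ N, dist (y p.1) (y p.2) ∈ R) :
    ∃ z : (α × α) × β → Pt d, (∀ v, z ((v, v), t0) = y v) ∧ Un z (expand L t0 t1 U N) := by
  choose! w w0 w1 w2 using fun p : α × α => g.2.2.2 (y p.1) (y p.2)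
  refine ⟨fun q => if q.2 = t0 then y q.1.1 else w q.1 q.2, fun v => if_pos rfl, ?_⟩
  simp only [Un, expand, List.forall_mem_append, List.forall_mem_map, List.forall_mem_flatMap, if_true]
  refine ⟨h, fun p hp e he => ?_⟩
  have k : ∀ i, (if (nm t0 t1 p i).2 = t0 then y (nm t0 t1 p i).1.1 else w (nm t0 t1 p i).1 (nm t0 t1 p i).2) = w p i :=
    fun i => by
      have := w0 p (hN p hp)
      have := w1 p (hN p hp)
      unfold nm
      grind
  rw [k, k]
  exact w2 p (hN p hp) e he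

def g1 (d : ℕ) : List (ℕ × ℕ) :=
  (List.range (d + 1) ×ˢ List.range (d + 1)).filter (fun e => e.1 ≠ e.2) ++
    (0, d + 1) :: (List.range d).map fun i => (i + 1, d + 2)

theorem un_g1 (y : ℕ → Pt d) : Un y (g1 d) ↔ (∀ i < d + 1, ∀ j < d + 1, i ≠ j → dist (y i) (y j) = 1) ∧
    dist (y 0) (y (d + 1)) = 1 ∧ ∀ i < d, dist (y (i + 1)) (y (d + 2)) = 1 := by
  simp only [Un, g1, List.forall_mem_append, List.forall_mem_map, List.forall_mem_cons, List.forall_mem_filter,
    Prod.forall, List.mem_product, List.mem_range, decide_eq_true_eq, and_imp]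
  exact and_congr_left fun _ => ⟨fun h i a j b => h i j a b, fun h i j a b => h i a j b⟩

theorem half : (√2)⁻¹ * (√2)⁻¹ = (1 / 2 : ℝ) := by rw [← mul_inv, Real.mul_self_sqrt (by norm_num)]; norm_num

theorem dist_of_sq {p q : Pt d} {r : ℝ} (hr : 0 ≤ r) (h : inner ℝ p p + inner ℝ q q - 2 * inner ℝ p q = r ^ 2) :
    dist p q = r := (sq_eq_sq₀ dist_nonneg hr).1 ((dist_sq p q).trans h)

theorem gad1 (h2 : 2 ≤ d) : Gad d (g1 d) (d + 1) (d + 2) {√2} := by
  refine ⟨by omega, ?_, fun y h c => ?_, fun a b h => ?_⟩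
  · simp only [g1, List.forall_mem_append, List.forall_mem_map, List.forall_mem_cons, List.forall_mem_filter,
      List.mem_range, decide_eq_true_eq]
    exact ⟨fun _ _ h => h, by omega, fun i hi => by omega⟩
  · obtain ⟨h1, h2, h3⟩ := (un_g1 y).1 h
    refine no_simplex (fun i => y i) (y (d + 1)) (fun i j c => h1 i i.2 j j.2 (Fin.val_ne_of_ne c)) fun i => ?_
    refine Fin.cases h2 (fun i => ?_) i
    rw [c]; exact h3 i i.2
  replace h : dist a b = √2 := h
  have d2 : (2 : ℝ) ≤ d := by exact_mod_cast h2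
  obtain ⟨w, hw, w0⟩ : ∃ w : ℝ, w * w = 2 + 2 * d ∧ 0 ≤ w := ⟨√(2 + 2 * d), Real.mul_self_sqrt (by linarith), by positivity⟩
  have r2 : √2 * √2 = 2 := Real.mul_self_sqrt (by norm_num)
  have hh : √(2 + 2 / d) ^ 2 = 2 + 2 / d := Real.sq_sqrt (by positivity)
  have h3 : 2 / (d : ℝ) ≤ 1 := by rw [div_le_one (by linarith)]; exact d2
  have h4 : 0 ≤ 2 / (d : ℝ) := by positivity
  have h5 : 1 ≤ √(2 + 2 / d) := Real.one_le_sqrt.2 (by linarith)
  obtain ⟨c, c1, c2⟩ := tri h2 (a := a) (b := b) (s := √(2 + 2 / d)) (by positivity) (by rw [h]; positivity)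
    (by rw [h]; nlinarith) (by rw [h]; nlinarith [Real.sqrt_nonneg 2])
  let o : Pt d := WithLp.toLp 2 fun _ => 1
  have oo : inner ℝ o o = d := by rw [PiLp.inner_apply]; simp [o]
  have eo : ∀ i < d, inner ℝ (ev d i) o = 1 := fun i hi => by
    simp only [ev, o, PiLp.inner_apply, RCLike.inner_apply, conj_trivial, one_mul]
    rw [Finset.sum_eq_single ⟨i, hi⟩ (fun k _ c => by simp [show k.1 ≠ i from fun e => c (Fin.ext e)]) (by simp)]
    simp
  have d0 : (d : ℝ) ≠ 0 := by linarith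
  have one : ∀ t : ℝ, t * t = 2 + 2 * d → ∀ i < d, dist ((√2)⁻¹ • ev d i) (((√2 + t) / (2 * d)) • o) = 1 := fun t ht i hi => by
    refine dist_of_sq zero_le_one ?_
    simp only [inner_smul_left, inner_smul_right, conj_trivial, oo, eo i hi, ev_inner hi, if_true]
    have : (√2)⁻¹ = √2 / 2 := by field_simp; linarith
    rw [this]
    field_simp
    linear_combination (d - 1) * r2 + ht
  obtain ⟨f, f1, f2, f3⟩ := move (a := c) (b := b) (a0 := ((√2 + w) / (2 * d)) • o) (b0 := ((√2 + -w) / (2 * d)) • o) (by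
    rw [c2]
    refine dist_of_sq (by positivity) ?_
    simp only [inner_smul_left, inner_smul_right, conj_trivial, oo, hh]
    field_simp
    linear_combination 4 * hw)
  refine ⟨fun i => if i = 0 then c else if i = d + 1 then a else if i = d + 2 then b else f ((√2)⁻¹ • ev d (i - 1)),
    by simp, by simp, (un_g1 _).2 ⟨fun i hi j hj n => ?_, by simp [dist_comm, c1], fun i hi => ?_⟩⟩
  · simp only [hi.ne, hj.ne, show i ≠ d + 2 by omega, show j ≠ d + 2 by omega, if_false]
    split_ifs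
    · omega
    · rw [← f1, f3, dist_comm, one w hw _ (by omega)]
    · rw [← f1, f3, one w hw _ (by omega)]
    · rw [f3]
      refine dist_of_sq zero_le_one ?_
      simp only [inner_smul_left, inner_smul_right, conj_trivial, ev_inner (show i - 1 < d by omega),
        ev_inner (show j - 1 < d by omega), if_true, if_neg (show i - 1 ≠ j - 1 by omega)]
      linarith [half]
  · simp only [show i + 1 ≠ d + 1 by omega, show i + 1 ≠ d + 2 by omega, show d + 2 ≠ d + 1 by omega, if_false, if_true,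
      Nat.add_one_ne_zero, Nat.add_sub_cancel]
    rw [← f2, f3, one (-w) (by linarith) _ hi]

def u2 (d : ℕ) : List ((ℕ × Bool) × (ℕ × Bool)) :=
  ((d, true), (0, true)) :: ((List.range d ×ˢ [true, false]) ×ˢ (List.range d ×ˢ [true, false])).filter fun e => e.1.1 ≠ e.2.1

def n2 (d : ℕ) : List ((ℕ × Bool) × (ℕ × Bool)) := (List.range d).map fun i => ((i, true), (i, false))

theorem un_u2 (y : ℕ × Bool → Pt d) : Un y (u2 d) ↔ dist (y (d, true)) (y (0, true)) = 1 ∧
    ∀ i < d, ∀ j < d, i ≠ j → ∀ s t, dist (y (i, s)) (y (j, t)) = 1 := by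
  simp only [Un, u2, List.forall_mem_cons, List.forall_mem_filter,
    Prod.forall, List.mem_product, List.mem_range, decide_eq_true_eq, and_imp]
  exact and_congr_right fun _ => ⟨fun h i a j b c s t => h i s j t a (by cases s <;> simp) b (by cases t <;> simp) c,
    fun h i s j t a _ b _ c => h i a j b c s t⟩

def g2 (d : ℕ) := expand (g1 d) (d + 1) (d + 2) (u2 d) (n2 d)

theorem gad2 (h3 : 3 ≤ d) :
    Gad d (g2 d) (((d, true), (d, true)), d + 1) (((0, false), (0, false)), d + 1) (Set.Icc (1 / 2) 2) := by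
  have g := gad1 (d := d) (by omega)
  have r2 : √2 * √2 = 2 := Real.mul_self_sqrt (by norm_num)
  refine ⟨by simp, exp_ne g ?_ (by simp [n2]), fun y h c => ?_, fun a b h => ?_⟩
  · simp only [u2, List.forall_mem_cons, List.forall_mem_filter, decide_eq_true_eq]
    exact ⟨by simp; omega, fun e _ h c => h (congrArg Prod.fst c)⟩
  · obtain ⟨h1, h2⟩ := exp_sound g h
    obtain ⟨h1, h4⟩ := (un_u2 _).1 h1
    simp only [n2, List.forall_mem_map, List.mem_range] at h2
    obtain ⟨m, hm⟩ := cross h3 _ _ (fun i => h2 i i.2)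
      fun i j c => ⟨h4 _ i.2 _ j.2 (Fin.val_ne_of_ne c) _ _, h4 _ i.2 _ j.2 (Fin.val_ne_of_ne c) _ _,
        h4 _ i.2 _ j.2 (Fin.val_ne_of_ne c) _ _⟩
    obtain ⟨m1, m2⟩ := hm ⟨0, by omega⟩
    simp only at m1 m2 h1
    rw [c, dist_one m, m1, inner_neg_neg, inner_neg_left, m2] at h1
    norm_num at h1
  have s1 : 1 ≤ √2 := by nlinarith [Real.sqrt_nonneg 2]
  have s2 : √2 ≤ 3 / 2 := by nlinarith [Real.sqrt_nonneg 2]
  obtain ⟨c, c1, c2⟩ := tri (d := d) (by omega) (a := a) (b := b) (s := √2) (by positivity) (by linarith [h.1])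
    (pow_le_pow_left₀ (by linarith) (by linarith [h.1]) 2) (by linarith [h.2])
  let q : ℕ → Bool → Pt d := fun i s => ((if s then 1 else -1) * (√2)⁻¹) • ev d i
  have q1 : ∀ i < d, dist (q i true) (q i false) = √2 := fun i hi => by
    refine dist_of_sq (by positivity) ?_
    simp only [q, inner_smul_left, inner_smul_right, conj_trivial, ev_inner hi, if_true, Bool.false_eq_true, if_false]
    nlinarith [half]
  have q2 : ∀ i < d, ∀ j < d, i ≠ j → ∀ s t, dist (q i s) (q j t) = 1 := fun i hi j hj n s t => by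
    refine dist_of_sq zero_le_one ?_
    simp only [q, inner_smul_left, inner_smul_right, conj_trivial, ev_inner hi, ev_inner hj, if_true, if_neg n]
    split_ifs <;> nlinarith [half]
  obtain ⟨f, f1, f2, f3⟩ := move (a := c) (b := b) ((q1 0 (by omega)).trans c2.symm)
  obtain ⟨z, z1, z2⟩ := exp_complete g (U := u2 d) (N := n2 d) (y := fun p => if p.1 = d then a else f (q p.1 p.2))
    ((un_u2 _).2 ⟨by simp [show 0 ≠ d by omega, f1, c1], fun i hi j hj n s t => by
      simp only [hi.ne, hj.ne, if_false, f3, q2 i hi j hj n]⟩) (by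
      simp only [n2, List.forall_mem_map, List.mem_range]
      exact fun i hi => by simp only [hi.ne, if_false, f3, q1 i hi, Set.mem_singleton_iff])
  exact ⟨z, by simp [z1], by simp [z1, show 0 ≠ d by omega, f2], z2⟩

theorem ne_dist (h3 : 3 ≤ d) {M x} (h0 : 0 < M) (x0 : x 0 = 1) (hx : ∀ i, |x i| ≤ 1) :
    ∀ e ∈ ne d M, dist (pos d x e.1) (pos d x e.2) ∈ Set.Icc (1 / 2 : ℝ) 2 := by
  have k : ∀ p q : Nd, p.1 ∈ bv d M → q.1 ∈ bv d M → -(1 / 2) ≤ inner ℝ (pos d x p) (pos d x q) →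
      inner ℝ (pos d x p) (pos d x q) ≤ 3 / 8 → dist (pos d x p) (pos d x q) ∈ Set.Icc (1 / 2 : ℝ) 2 :=
    fun p q a b c e => by
      have := dist_sq (pos d x p) (pos d x q)
      rw [pos_self (vec_ne h3 _ a), pos_self (vec_ne h3 _ b)] at this
      constructor <;> nlinarith [dist_nonneg (x := pos d x p) (y := pos d x q)]
  simp only [ne, List.forall_mem_append, List.forall_mem_map, all_dbl]
  refine ⟨fun v hv => ?_, fun e he s t => ?_⟩
  · have := pos_self (x := x) (p := (v, true)) (vec_ne h3 _ (ap_mem v hv))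
    have e : pos d x (v, false) = -pos d x (v, true) := by simp [pos]
    exact k _ _ (ap_mem v hv) (ap_mem v hv) (by rw [e, inner_neg_right, this]) (by rw [e, inner_neg_right, this]; norm_num)
  obtain ⟨a, b, -⟩ := np_mem h0 e he
  have key : 16 * inner ℝ (vec d x e.1) (vec d x e.2) ^ 2 ≤
      9 * (inner ℝ (vec d x e.1) (vec d x e.1) * inner ℝ (vec d x e.2) (vec d x e.2)) := by
    rw [vec_inner h3 a b, vec_inner h3 a a, vec_inner h3 b b]
    clear a b
    revert e
    simp only [np, List.forall_mem_append, List.forall_mem_map, List.forall_mem_cons, List.not_mem_nil, false_imp_iff,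
      implies_true, and_true, cX, cY, cZ]
    simp [x0]
    exact ⟨by norm_num, fun v _ => by nlinarith [sq_le_one_iff_abs_le_one (x v) |>.2 (hx v)]⟩
  have na := norm_pos_iff.2 (vec_ne h3 (x := x) _ (List.mem_append_right _ a))
  have nb := norm_pos_iff.2 (vec_ne h3 (x := x) _ (List.mem_append_right _ b))
  have : |inner ℝ (vec d x e.1) (vec d x e.2) / (2 * (‖vec d x e.1‖ * ‖vec d x e.2‖))| ≤ 3 / 8 := by
    rw [real_inner_self_eq_norm_mul_norm, real_inner_self_eq_norm_mul_norm] at key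
    rw [abs_div, abs_of_pos (a := 2 * _) (by positivity), div_le_iff₀ (by positivity)]
    exact abs_le_of_sq_le_sq' (by nlinarith) (by positivity) |> abs_le.2
  have := abs_le.1 this
  refine k _ _ (List.mem_append_right _ a) (List.mem_append_right _ b) ?_ ?_ <;> rw [pos_inner] <;> split_ifs <;>
    linarith [this.1, this.2]

end Pool.Agent.H.MP_f9087f_lc
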